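import Pool.Agent.R571.PF.Final

/-!
# MP_9f46b9_an, Q1 (full answer): the de Bruijn–Newman kernel is a Pólya frequency function of
order four

The kernel `K(u) = Φ(|u|)` satisfies `det [K(x_i - y_j)] > 0` for all `r ≤ 4` and all
`x_1 < … < x_r`, `y_1 < … < y_r`; in particular `K ∈ PF_4`.
-/

namespace Pool.Agent.Results.MP_9f46b9_an.PolyaFrequencyFour

open Real Pool.Agent.R571.PF

/-- The term of index `n + 1 ≥ 1` of the series defining `Φ(u)`:
`(2π² (n+1)⁴ e^{9u} - 3π (n+1)² e^{5u}) e^{-π (n+1)² e^{4u}}`. -/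
noncomputable def PhiTerm (n : ℕ) (u : ℝ) : ℝ :=
  (2 * π ^ 2 * ((n : ℝ) + 1) ^ 4 * exp (9 * u) - 3 * π * ((n : ℝ) + 1) ^ 2 * exp (5 * u))
    * exp (-(π * ((n : ℝ) + 1) ^ 2 * exp (4 * u)))

/-- `Φ(u) = ∑_{m ≥ 1} (2π² m⁴ e^{9u} - 3π m² e^{5u}) e^{-π m² e^{4u}}` (with `m = n + 1`). -/
noncomputable def Phi (u : ℝ) : ℝ := ∑' n : ℕ, PhiTerm n u

/-- The de Bruijn–Newman kernel `K(u) = Φ(|u|)`. -/
noncomputable def K (u : ℝ) : ℝ := Phi |u|

/-- `f` is a Pólya frequency function of order `k`. -/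
def IsPF (k : ℕ) (f : ℝ → ℝ) : Prop :=
  (∀ u, 0 ≤ f u) ∧ ∀ r : ℕ, 1 ≤ r → r ≤ k → ∀ x y : Fin r → ℝ, StrictMono x → StrictMono y →
    0 ≤ (Matrix.of fun i j : Fin r => f (x i - y j)).det

lemma phiTerm_eq (n : ℕ) (u : ℝ) : PhiTerm n u = term p0 n u := by
  unfold PhiTerm term p0 xx
  simp only [Polynomial.eval_sub, Polynomial.eval_mul, Polynomial.eval_C, Polynomial.eval_pow,
    Polynomial.eval_X]
  have e9 : exp (9 * u) = exp u * (exp (4 * u)) ^ 2 := by
    rw [← exp_nat_mul, ← exp_add]; ring_nf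
  have e5 : exp (5 * u) = exp u * exp (4 * u) := by
    rw [← exp_add]; ring_nf
  have e : -(((n : ℝ) + 1) ^ 2 * (π * exp (4 * u))) = -(π * ((n : ℝ) + 1) ^ 2 * exp (4 * u)) := by
    ring
  rw [e9, e5, e]
  ring

lemma phi_eq (u : ℝ) : Phi u = S p0 u := by
  unfold Phi S
  simp only [phiTerm_eq]

lemma K_eq : K = S p0 := by
  funext u
  unfold K
  rw [phi_eq]
  rcases abs_choice u with h | h
  · rw [h]
  · rw [h, S_even]

/-- **MP_9f46b9_an, Q1, full answer.**  The series defining `Φ` converges, `K ∈ PF_4`, and in fact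
all minors of order at most four are strictly positive. -/
theorem result : (∀ u : ℝ, Summable fun n : ℕ => PhiTerm n u) ∧ IsPF 4 K ∧
    ∀ r : ℕ, 1 ≤ r → r ≤ 4 → ∀ x y : Fin r → ℝ, StrictMono x → StrictMono y →
      0 < (Matrix.of fun i j : Fin r => K (x i - y j)).det := by
  have hstr : ∀ r : ℕ, 1 ≤ r → r ≤ 4 → ∀ x y : Fin r → ℝ, StrictMono x → StrictMono y →
      0 < (Matrix.of fun i j : Fin r => K (x i - y j)).det := by
    intro r _ hr x y hx hy
    rw [K_eq]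
    exact minors_pos r hr x y hx hy
  refine ⟨?_, ⟨?_, ?_⟩, hstr⟩
  · intro u
    simp only [phiTerm_eq]
    exact summable_term p0 u
  · intro u
    rw [K_eq]
    have := (pos_D u).1
    simpa [Dk] using this.le
  · intro r h1 hr x y hx hy
    exact (hstr r h1 hr x y hx hy).le

end Pool.Agent.Results.MP_9f46b9_an.PolyaFrequencyFour
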